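import Pool.Agent.H90.EH.Targets

/-!
# Board hst_modules, module HSC: the series depends only on the cone
-/

set_option autoImplicit false

namespace Pool.Agent.H74.EH.HSC

open Finset
open scoped Classical
open Pool.Agent.H90.EH

theorem pf_HSC : T_HSC := by
  intro V _ _ Λ ht A A' h
  have hs1 : Sp A = Sp A' := by
    refine le_antisymm (Sp_le fun a ha => cone_sp ?_) (Sp_le fun a ha => cone_sp ?_)
    · rw [← h]; exact cone_mem ha
    · rw [h]; exact cone_mem ha
  have hr : rk A = rk A' := by
    unfold rk
    rw [hs1]
  exact ⟨hr, by unfold hs; rw [hr, h]⟩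

end Pool.Agent.H74.EH.HSC
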