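import Pool.Agent.H90.EH.Targets

/-!
# Board hst_modules, module LPU: uniqueness of the optimal basis
-/

set_option autoImplicit false

namespace Pool.Agent.H74.EH.LPU

open Finset
open scoped Classical
open Pool.Agent.H90.EH

variable {V : Type} [AddCommGroup V] [Module ℚ V]

theorem co_trans {A B B' : Finset V} (hB : IsB A B) (hB' : IsB A B') {z : V} (hz : z ∈ Sp A)
    {b : V} (hb : b ∈ B) : co B z b = ∑ b' ∈ B', co B' z b' * co B b' b := by
  refine co_unique hB.2.1 (c := fun b => ∑ b' ∈ B', co B' z b' * co B b' b) ?_ hb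
  have h1 : z = ∑ b' ∈ B', co B' z b' • b' := co_spec (hB'.sp ▸ hz)
  have h2 : ∀ b' ∈ B', b' = ∑ b ∈ B, co B b' b • b := fun b' hb' =>
    co_spec (hB.2.2 b' (hB'.1 hb'))
  calc z = ∑ b' ∈ B', co B' z b' • b' := h1
    _ = ∑ b' ∈ B', co B' z b' • ∑ b ∈ B, co B b' b • b := by
        refine Finset.sum_congr rfl fun b' hb' => ?_
        rw [← h2 b' hb']
    _ = ∑ b ∈ B, (∑ b' ∈ B', co B' z b' * co B b' b) • b := by
        simp only [Finset.smul_sum, Finset.sum_smul, mul_smul]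
        rw [Finset.sum_comm]

theorem val_trans {A B B' : Finset V} (w : V → ℚ) (hB : IsB A B) (hB' : IsB A B') {z : V}
    (hz : z ∈ Sp A) : ∑ b ∈ B, co B z b * w b =
      ∑ b' ∈ B', co B' z b' * ∑ b ∈ B, co B b' b * w b := by
  calc ∑ b ∈ B, co B z b * w b
      = ∑ b ∈ B, (∑ b' ∈ B', co B' z b' * co B b' b) * w b :=
        Finset.sum_congr rfl fun b hb => by rw [co_trans hB hB' hz hb]
    _ = ∑ b' ∈ B', co B' z b' * ∑ b ∈ B, co B b' b * w b := by
        simp only [Finset.sum_mul, Finset.mul_sum]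
        rw [Finset.sum_comm]
        refine Finset.sum_congr rfl fun b' _ => Finset.sum_congr rfl fun b _ => by ring

theorem mem_Tri {A B : Finset V} {w : V → ℚ} (h : B ∈ Tri A w) :
    IsB A B ∧ ∀ a ∈ A, a ∉ B → ∑ b ∈ B, co B a b * w b < w a := by
  unfold Tri at h
  exact (Finset.mem_filter.1 h).2

theorem val_le {A B B' : Finset V} {w : V → ℚ} (hB : B ∈ Tri A w) (hB' : B' ∈ Tri A w) {z : V}
    (hz : z ∈ Sp A) (hpos : ∀ b ∈ B', 0 < co B' z b) :
    ∑ b ∈ B, co B z b * w b ≤ ∑ b ∈ B', co B' z b * w b ∧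
      (¬ B' ⊆ B → ∑ b ∈ B, co B z b * w b < ∑ b ∈ B', co B' z b * w b) := by
  obtain ⟨h1, h2⟩ := mem_Tri hB
  obtain ⟨h1', _⟩ := mem_Tri hB'
  have hle : ∀ b' ∈ B', ∑ b ∈ B, co B b' b * w b ≤ w b' := by
    intro b' hb'
    by_cases h : b' ∈ B
    · refine le_of_eq ?_
      rw [Finset.sum_eq_single b']
      · rw [co_self h1.2.1 h h, if_pos rfl, one_mul]
      · intro b hb hne
        rw [co_self h1.2.1 h hb, if_neg hne, zero_mul]
      · intro hn; exact absurd h hn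
    · exact (h2 b' (h1'.1 hb') h).le
  rw [val_trans w h1 h1' hz]
  refine ⟨Finset.sum_le_sum fun b' hb' => mul_le_mul_of_nonneg_left (hle b' hb')
    (hpos b' hb').le, fun hsub => ?_⟩
  obtain ⟨b₀, hb₀, hb₀'⟩ := Finset.not_subset.1 hsub
  refine Finset.sum_lt_sum (fun b' hb' => mul_le_mul_of_nonneg_left (hle b' hb')
    (hpos b' hb').le) ⟨b₀, hb₀, ?_⟩
  exact mul_lt_mul_of_pos_left (h2 b₀ (h1'.1 hb₀) hb₀') (hpos b₀ hb₀)

theorem pf_LPU : T_LPU := by
  intro V _ _ A w z B B' hz hB hB' hpos hpos'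
  have h1 := val_le hB hB' hz hpos'
  have h2 := val_le hB' hB hz hpos
  refine Finset.Subset.antisymm ?_ ?_
  · by_contra h
    exact absurd (h2.2 h) (not_lt.2 h1.1)
  · by_contra h
    exact absurd (h1.2 h) (not_lt.2 h2.1)

end Pool.Agent.H74.EH.LPU
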